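import Pool.Agent.Q182.CC5

/-!
# Finitude of attractors near maps with critical circles on which the dynamics is arbitrary

Let `N` be a closed smooth manifold, `F` a `C^r` diffeomorphism, `1 ≤ r ≤ ∞`, and `h` a smooth function
with `h ∘ F ≥ h` (for instance a first integral). Suppose that the critical set of `h` is the union of a
closed `F`-invariant set `K₀` and of finitely many circles, which are disjoint from each other and from
`K₀`, and that

* the restriction of `F` to `K₀` has finitely many chain recurrence classes, each of them transitive (for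
  instance `K₀` is finite, or empty);
* every circle is `F`-invariant with its orientation, and is rotated by a smooth flow which preserves `h`.

Nothing is assumed about the dynamics on the circles (degenerate periodic points, Denjoy maps, ...), nor
about degeneracy of `h` there. Then arbitrarily close to `F` in `Diff^r(N)` there are diffeomorphisms with
finitely many attractors covering `N`.

Proof. (1) Compose `F` with the flows near the circles to make all circle maps Morse-Smale, without
decreasing `h` and without changing `F` on `K₀`: a small rotation creates a periodic point, a bump destroys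
the case that all points are periodic, and by Sard's theorem almost all small rotations make all periodic
points nondegenerate. (2) Such circle maps have Lyapunov functions, so only finitely many points of the
circles are chain recurrent on the critical set. (3) Push along the gradient of `h` (library
`Pool/Agent/Y318/MN`, helper318): the `ω`-limit sets are then contained in the critical set and are
internally chain transitive, so that they are in a chain class of `K₀` or are periodic orbits on circles.

Earlier theorems: `MonotoneManifolds` (helper318, starting files) and `ChainClasses` (helper182) assume that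
`F` has finitely many transitive classes on the whole critical set. Author of this file and of
`Pool/Agent/Q182/CC1`-`CC5`: helper182.
-/

set_option autoImplicit false

open scoped Manifold ContDiff Topology

universe u

namespace Pool.Agent.Results.MP_3a2b62_an.ArbitraryCircles

open MeasureTheory Set Pool.Agent.H718R2.G Pool.Agent.TH80.OMS

open Pool.Agent.H728R2.FA (omegaLim FiniteAttractors)

/-- `y` is a critical point of `h` (the derivative in the chart at `y` vanishes). -/
def IsCrit (n : ℕ) {N : Type u} [TopologicalSpace N] [ChartedSpace (V n) N] (h : N → ℝ) (y : N) :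
    Prop :=
  fderiv ℝ (fun v : V n => h ((chartAt (V n) y).symm v)) (chartAt (V n) y y) = 0

/-- There are chains in `K` from `a` to `b` with arbitrarily small jumps: for every open neighbourhood
`W` of the diagonal there are `k ≥ 1` and points `a = x_0, x_1, …, x_k = b` of `K` with
`(f(x_i), x_{i+1}) ∈ W`. -/
def ChainTo {X : Type u} [TopologicalSpace X] (f : X → X) (K : Set X) (a b : X) : Prop :=
  ∀ W : Set (X × X), IsOpen W → (∀ x, (x, x) ∈ W) →
    Relation.TransGen (fun x y => x ∈ K ∧ y ∈ K ∧ (f x, y) ∈ W) a b

/-- The chain recurrence classes of the restriction of `f` to `K`. -/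
def chainClasses {X : Type u} [TopologicalSpace X] (f : X → X) (K : Set X) : Set (Set X) :=
  {C | ∃ a, ChainTo f K a a ∧ C = {b | ChainTo f K a b ∧ ChainTo f K b a}}

/-- `C` contains a point whose forward orbit is dense in `C`. -/
def Transitive {X : Type u} [TopologicalSpace X] (f : X → X) (C : Set X) : Prop :=
  ∃ x ∈ C, C ⊆ closure (range fun k : ℕ => f^[k] x)

/-- `ψ` is a smooth flow on `N`. -/
structure IsFlow (n : ℕ) (N : Type u) [TopologicalSpace N] [ChartedSpace (V n) N]
    (ψ : ℝ → N → N) : Prop where
  smooth : ContMDiff (𝓘(ℝ, ℝ).prod (𝓡 n)) (𝓡 n) ∞ (fun q : ℝ × N => ψ q.1 q.2)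
  zero : ∀ y, ψ 0 y = y
  add : ∀ s t y, ψ (s + t) y = ψ s (ψ t y)

/-- `γ` parametrises a simple closed curve by `ℝ/ℤ`, and the smooth flow `ψ` rotates this curve and
preserves `h`. -/
structure IsCircle (n : ℕ) {N : Type u} [TopologicalSpace N] [ChartedSpace (V n) N] (h : N → ℝ)
    (γ : ℝ → N) (ψ : ℝ → N → N) : Prop where
  per : ∀ u v, γ u = γ v ↔ ∃ z : ℤ, u = v + z
  flow : IsFlow n N ψ
  rot : ∀ s t, ψ s (γ t) = γ (t + s)
  inv : ∀ s y, h (ψ s y) = h y

/-- The critical set of `h` is the disjoint union of the closed set `K` and of the circles `γ i`. -/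
structure CritSet (n : ℕ) {N : Type u} [TopologicalSpace N] [ChartedSpace (V n) N]
    (h : N → ℝ) (K : Set N) {ι : Type} (γ : ι → ℝ → N) (ψ : ι → ℝ → N → N) : Prop where
  closed : IsClosed K
  circle : ∀ i, IsCircle n h (γ i) (ψ i)
  disjoint : ∀ i j s t, γ i s = γ j t → i = j
  off : ∀ i t, γ i t ∉ K
  crit : ∀ y, IsCrit n h y ↔ y ∈ K ∨ ∃ i t, γ i t = y

/-- `f` is the lift of an orientation preserving `C¹` diffeomorphism of the circle `ℝ/ℤ`. -/
structure IsLift (f : ℝ → ℝ) : Prop where
  smooth : ContDiff ℝ 1 f
  pos : ∀ t, 0 < deriv f t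
  one : ∀ t, f (t + 1) = f t + 1

/-- `F` maps every circle `γ i` to itself, with an orientation preserving `C¹` diffeomorphism. -/
def CircleMaps {X : Type u} {ι : Type} (F : X → X) (γ : ι → ℝ → X) : Prop :=
  ∃ f : ι → ℝ → ℝ, (∀ i, IsLift (f i)) ∧ ∀ i t, F (γ i t) = γ i (f i t)

/-- `K` is `F`-invariant and the restriction of `F` to `K` has finitely many chain recurrence classes, each
of them transitive. -/
def FinitelyManyClasses {X : Type u} [TopologicalSpace X] (F : X → X) (K : Set X) : Prop :=
  F '' K = K ∧ (chainClasses F K).Finite ∧ ∀ C ∈ chainClasses F K, Transitive F C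

/-- `f` does not decrease `h`. -/
def NotDecreasing {X : Type u} (f : X → X) (h : X → ℝ) : Prop := ∀ x, h x ≤ h (f x)

/-- `g` has finitely many attractors covering the space, for every measure. -/
def FinitelyManyAttractors {X : Type u} [TopologicalSpace X] (g : X → X) : Prop :=
  ∀ (_ : MeasurableSpace X) (μ : Measure X), FiniteAttractors μ g

theorem crit_iff {n : ℕ} {N : Type u} [TopologicalSpace N] [T2Space N]
    [ChartedSpace (V n) N] [IsManifold (𝓡 n) ∞ N] {h : N → ℝ} (hh : ContMDiff (𝓡 n) 𝓘(ℝ, ℝ) ∞ h)
    (y : N) : IsCrit n h y ↔ Pool.Agent.Y318.MN.IsCrit n h y :=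
  (Pool.Agent.Y318.MN.crit_iff hh (IsManifold.chart_mem_maximalAtlas y)
    (mem_chart_source (V n) y)).symm

/-- **Arbitrary dynamics on the critical circles.** -/
theorem result (n : ℕ) (N : Type u) [TopologicalSpace N] [T2Space N] [CompactSpace N]
    [ChartedSpace (V n) N] [IsManifold (𝓡 n) ∞ N] (r : ℕ∞) (hr : 1 ≤ r) (F : DiffM n N r)
    (h : N → ℝ) (hh : ContMDiff (𝓡 n) 𝓘(ℝ, ℝ) ∞ h) (hm : NotDecreasing F h)
    (K : Set N) (ι : Type) [Finite ι] (γ : ι → ℝ → N) (ψ : ι → ℝ → N → N)
    (hS : CritSet n h K γ ψ) (hK : FinitelyManyClasses F K) (hγ : CircleMaps F γ)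
    (U : Set (DiffM n N r)) (hU : IsOpen[strongTop n N r] U) (hFU : F ∈ U) :
    ∃ G ∈ U, NotDecreasing G h ∧ EqOn G F K ∧ FinitelyManyAttractors G := by
  obtain ⟨hFK, hfin, htr⟩ := hK
  obtain ⟨f, hf, hγ⟩ := hγ
  obtain ⟨G, h1, h2, h3, h4⟩ := Pool.Agent.Q182.CC.attr hr hh hS.closed
    (fun i => (⟨(hS.circle i).per, ⟨(hS.circle i).flow.smooth, (hS.circle i).flow.zero,
        (hS.circle i).flow.add⟩, (hS.circle i).rot, (hS.circle i).inv⟩ :
        Pool.Agent.Q182.CC.Circ n h (γ i) (ψ i))) hS.disjoint hS.off
    (fun y => (crit_iff hh y).symm.trans (hS.crit y)) F hm hFK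
    (fun i => ⟨(hf i).smooth, (hf i).pos, (hf i).one⟩) hγ hfin
    (fun a ha => htr _ ⟨a, ha, rfl⟩) U hU hFU
  exact ⟨G, h1, h2, h3, h4⟩

end Pool.Agent.Results.MP_3a2b62_an.ArbitraryCircles
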