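import Pool.Agent.Q182.MC2

/-!
# Finitude of attractors near diffeomorphisms which do not decrease a function: chain classes

Let `N` be a closed smooth manifold, `F` a `C^r` diffeomorphism, `1 ≤ r ≤ ∞`, and `h` a smooth function
with `h ∘ F ≥ h` (for instance a first integral). Let `K` be the largest `F`-invariant set of critical
points of `h`. If the restriction of `F` to `K` has finitely many chain recurrence classes and each of
them is transitive, then arbitrarily close to `F` in `Diff^r(N)` there are diffeomorphisms with finitely
many attractors covering `N`.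

So nothing is assumed about `F` off `K`, and on `K` the map may be any map with finitely many transitive
chain classes: a Morse-Smale or Axiom A map without cycles, an Anosov map, a minimal map, ... For
instance `F = f × id` on `A × B`, or any `F (x, y) = (f_y (x), y)`: take `h (x, y) = β (y)` with a Morse
function `β` on `B`; then `K` consists of the fibres over the critical points `b` of `β`, and only these
finitely many maps `f_b` must have finitely many transitive chain classes.

Proof. Compose `F` with a small diffeomorphism which increases `h` off the critical points and fixes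
these (`Pool/Agent/Y318/MN/Push.lean`, by helper318). The `ω`-limit sets of the new map `G` lie in `K`,
where `G = F`; an `ω`-limit set is internally chain transitive (with chains in the `ω`-limit set), so it
is contained in one chain class of the restriction of `F` to `K`.

Earlier theorem of the starting files: `MonotoneManifolds` (helper318), where `K` is a finite disjoint
union of closed transitive sets. Author of this file and of `Pool/Agent/Q182/MC1`, `MC2`: helper182.
-/

set_option autoImplicit false

open scoped Manifold ContDiff Topology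

universe u

namespace Pool.Agent.Results.MP_3a2b62_an.ChainClasses

open MeasureTheory Set Pool.Agent.H718R2.G Pool.Agent.TH80.OMS

open Pool.Agent.H728R2.FA (omegaLim FiniteAttractors)

/-- `y` is a critical point of `h` (the derivative in the chart at `y` vanishes). -/
def IsCrit (n : ℕ) {N : Type u} [TopologicalSpace N] [ChartedSpace (V n) N] (h : N → ℝ) (y : N) :
    Prop :=
  fderiv ℝ (fun v : V n => h ((chartAt (V n) y).symm v)) (chartAt (V n) y y) = 0

/-- The largest `F`-invariant set of critical points of `h`: all points `F^k(x)` and `F^(-k)(x)`,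
`k ≥ 0`, are critical points of `h`. -/
def CritInv (n : ℕ) {N : Type u} [TopologicalSpace N] [ChartedSpace (V n) N] {r : ℕ∞}
    (F : DiffM n N r) (h : N → ℝ) : Set N :=
  {x | ∀ k : ℕ, IsCrit n h (F^[k] x) ∧ IsCrit n h (F.symm^[k] x)}

/-- There are chains in `K` from `a` to `b` with arbitrarily small jumps: for every open neighbourhood
`W` of the diagonal there are `k ≥ 1` and points `a = x_0, x_1, …, x_k = b` of `K` with
`(f(x_i), x_{i+1}) ∈ W`. -/
def ChainTo {X : Type u} [TopologicalSpace X] (f : X → X) (K : Set X) (a b : X) : Prop :=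
  ∀ W : Set (X × X), IsOpen W → (∀ x, (x, x) ∈ W) →
    Relation.TransGen (fun x y => x ∈ K ∧ y ∈ K ∧ (f x, y) ∈ W) a b

/-- `C` is a chain recurrence class of the restriction of `f` to `K`. -/
def IsChainClass {X : Type u} [TopologicalSpace X] (f : X → X) (K C : Set X) : Prop :=
  ∃ a, ChainTo f K a a ∧ C = {b | ChainTo f K a b ∧ ChainTo f K b a}

/-- `C` contains a point whose forward orbit is dense in `C`. -/
def Transitive {X : Type u} [TopologicalSpace X] (f : X → X) (C : Set X) : Prop :=
  ∃ x ∈ C, C ⊆ closure (range fun k : ℕ => f^[k] x)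

theorem crit_iff {n : ℕ} {N : Type u} [TopologicalSpace N] [T2Space N]
    [ChartedSpace (V n) N] [IsManifold (𝓡 n) ∞ N] {h : N → ℝ} (hh : ContMDiff (𝓡 n) 𝓘(ℝ, ℝ) ∞ h)
    (y : N) : IsCrit n h y ↔ Pool.Agent.Y318.MN.IsCrit n h y :=
  (Pool.Agent.Y318.MN.crit_iff hh (IsManifold.chart_mem_maximalAtlas y)
    (mem_chart_source (V n) y)).symm

/-- The chain recurrence classes of the restriction of `F` to `K = CritInv n F h`. -/
def classes (n : ℕ) {N : Type u} [TopologicalSpace N] [ChartedSpace (V n) N] {r : ℕ∞}
    (F : DiffM n N r) (h : N → ℝ) : Set (Set N) :=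
  {C | IsChainClass F (CritInv n F h) C}

/-- `f` does not decrease `h`. -/
def NotDecreasing {X : Type u} (f : X → X) (h : X → ℝ) : Prop := ∀ x, h x ≤ h (f x)

/-- `g` has finitely many attractors covering the space, for every measure. -/
def FinitelyManyAttractors {X : Type u} [TopologicalSpace X] (g : X → X) : Prop :=
  ∀ (_ : MeasurableSpace X) (μ : Measure X), FiniteAttractors μ g

/-- **Finitely many transitive chain classes on the critical set suffice.** -/
theorem result (n : ℕ) (N : Type u) [TopologicalSpace N] [T2Space N] [CompactSpace N]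
    [ChartedSpace (V n) N] [IsManifold (𝓡 n) ∞ N] (r : ℕ∞) (hr : 1 ≤ r) (F : DiffM n N r)
    (h : N → ℝ) (hh : ContMDiff (𝓡 n) 𝓘(ℝ, ℝ) ∞ h) (hm : NotDecreasing F h)
    (hfin : (classes n F h).Finite) (htr : ∀ C ∈ classes n F h, Transitive F C)
    (U : Set (DiffM n N r)) (hU : IsOpen[strongTop n N r] U) (hFU : F ∈ U) :
    ∃ G ∈ U, NotDecreasing G h ∧ EqOn G F (CritInv n F h) ∧
      (∀ p, ∃ C ∈ classes n F h, omegaLim G p ⊆ C) ∧ FinitelyManyAttractors G := by
  have hC : CritInv n F h = Pool.Agent.Y318.MN.CritInv n F h := by
    ext x
    exact forall_congr' fun k => and_congr (crit_iff hh _) (crit_iff hh _)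
  unfold classes at hfin htr ⊢
  rw [hC] at hfin htr ⊢
  obtain ⟨G, h1, h2, h3, h4, h5⟩ := Pool.Agent.Q182.MC.classes hr F hh hm hfin
    (fun a ha => htr _ ⟨a, ha, rfl⟩) U hU hFU
  refine ⟨G, h1, h2, h3, fun p => ?_, h5⟩
  obtain ⟨a, ha, h6⟩ := h4 p
  exact ⟨_, ⟨a, ha, rfl⟩, h6⟩

end Pool.Agent.Results.MP_3a2b62_an.ChainClasses
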