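import Pool.Agent.Q189.FL.Attr

/-!
# Finitude of attractors for generic diffeomorphisms with few nonperiodic recurrent points

Let `N` be a closed smooth manifold and `1 ≤ r ≤ ∞`. For generic `f ∈ Diff^r(N)` (a Baire set) the following
dichotomy holds: either uncountably many recurrent points of `f` are not periodic, or `Ω(f)` is finite and
consists of hyperbolic periodic points, every `ω`-limit set is contained in one of these finitely many periodic
orbits, and `f` has finitely many attractors covering `N` up to a null set, for every measure on `N` (in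
particular for Lebesgue measure).

So the density asked for in Q1 can fail only in an open set in which generic maps have uncountably many
nonperiodic recurrent points.

The dichotomy for `Ω(f)` is the generic form of the theorem of project CO of the starting files
(`Pool/Agent/Y504/CO/DicF.lean`); here the attractors are deduced from it.
-/

set_option autoImplicit false

open scoped Manifold ContDiff Topology

universe u

namespace Pool.Agent.Results.MP_3a2b62_an.GenericDichotomy

open MeasureTheory Set Pool.Agent.H718R2.G Pool.Agent.TH80.OMS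

open Pool.Agent.H728R2.FA (omegaLim FiniteAttractors)

/-- `S` contains a countable intersection of open dense subsets of `Diff^r(N)`. -/
def BaireSet (n : ℕ) (N : Type u) [TopologicalSpace N] [ChartedSpace (V n) N] (r : ℕ∞)
    (S : Set (DiffM n N r)) : Prop :=
  ∃ R : ℕ → Set (DiffM n N r), (∀ j, IsOpen[strongTop n N r] (R j)) ∧
    (∀ j, @Dense _ (strongTop n N r) (R j)) ∧ ∀ f, (∀ j, f ∈ R j) → f ∈ S

/-- The recurrent points of `f`: every neighbourhood of `x` contains some `f^k(x)`, `k ≥ 1`. -/
def Rec {N : Type u} [TopologicalSpace N] (f : N → N) : Set N :=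
  {x | ∀ W ∈ 𝓝 x, ∃ k : ℕ, 1 ≤ k ∧ f^[k] x ∈ W}

/-- At most countably many recurrent points of `f` are not periodic. -/
def CountableRec {N : Type u} [TopologicalSpace N] (f : N → N) : Prop := (Rec f \ Per f).Countable

/-- `p` is a hyperbolic periodic point of `F`: `F^m(p) = p` for some `m ≥ 1`, and for every such `m`
and every chart `ψ` at `p` no eigenvalue of the derivative `D` of `F^m` at `p` has modulus one. -/
def IsHyperbolicPer (n : ℕ) {N : Type u} [TopologicalSpace N] [ChartedSpace (V n) N]
    (F : N → N) (p : N) : Prop :=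
  p ∈ Per F ∧ ∀ m : ℕ, 1 ≤ m → F^[m] p = p → ∀ ψ ∈ IsManifold.maximalAtlas (𝓡 n) ∞ N,
    p ∈ ψ.source → ∃ D : V n →L[ℝ] V n, HasFDerivAt (fun v => ψ (F^[m] (ψ.symm v))) D (ψ p) ∧
      ∀ μ : ℂ, ((LinearMap.charpoly (D : V n →ₗ[ℝ] V n)).map (algebraMap ℝ ℂ)).IsRoot μ → ‖μ‖ ≠ 1

/-- `Ω(f)` is finite and consists of hyperbolic periodic points, every `ω`-limit set is contained in the
orbit of one of them, and `f` has finitely many attractors covering `N`, for every measure on `N`. -/
def FinitelyManyOrbits (n : ℕ) {N : Type u} [TopologicalSpace N] [ChartedSpace (V n) N] {r : ℕ∞}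
    (f : DiffM n N r) : Prop :=
  (Omega f).Finite ∧ (∀ p ∈ Omega f, IsHyperbolicPer n f p) ∧
    (∀ p, ∃ q ∈ Omega f, omegaLim f p ⊆ range fun j : ℕ => f^[j] q) ∧
    ∀ (_ : MeasurableSpace N) (μ : Measure N), FiniteAttractors μ f

/-- **The generic dichotomy.** -/
theorem result (n : ℕ) (N : Type u) [TopologicalSpace N] [T2Space N] [CompactSpace N]
    [ChartedSpace (V n) N] [IsManifold (𝓡 n) ∞ N] (r : ℕ∞) (hr : 1 ≤ r) :
    BaireSet n N r {f | ¬ CountableRec f ∨ FinitelyManyOrbits n f} ∧
    (∀ (_ : MeasurableSpace N) (μ : Measure N) (U : Set (DiffM n N r)),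
      (∀ f ∈ U, ¬ FiniteAttractors μ f) → BaireSet n N r {f | f ∈ U → ¬ CountableRec f}) := by
  obtain ⟨R, h1, h2, h3⟩ := Pool.Agent.Y504.CO.DicF.generic_dichotomy n N r hr
  have key : BaireSet n N r {f | ¬ CountableRec f ∨ FinitelyManyOrbits n f} := by
    refine ⟨R, h1, h2, fun f hf => ?_⟩
    by_cases hc : CountableRec f
    · have h4 := (h3 f hf).2 hc
      obtain ⟨h5, h6⟩ := Pool.Agent.Q189.FL.finite_attractors_of f h4
      exact Or.inr ⟨h4.1.1, h4.2, h5, h6⟩
    · exact Or.inl hc
  refine ⟨key, fun _ μ U hU => ?_⟩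
  obtain ⟨R', h1', h2', h3'⟩ := key
  refine ⟨R', h1', h2', fun f hf hfU => ?_⟩
  rcases h3' f hf with h | h
  · exact h
  · exact absurd (h.2.2.2 _ μ) (hU f hfU)

end Pool.Agent.Results.MP_3a2b62_an.GenericDichotomy
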