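import Pool.Agent.Q182.MF4

/-!
# Finitude of attractors near vector fields which do not decrease a function

Let `N` be a closed smooth manifold, `X` a vector field of class `C^r`, `1 ≤ r ≤ ∞`, and `h` a smooth
function which does not decrease along the flow of `X` (for instance a first integral). Let `K` be the
largest invariant set of critical points of `h`.

(1) If the restriction of the flow of `X` to `K` has finitely many chain recurrence classes and each of
them is transitive, then there is a smooth vector field `Z` such that for all `ε > 0` the flow of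
`X + ε Z` has finitely many attractors covering `N`.

(2) If `h` has finitely many critical points (for instance for all Hamiltonian vector fields of Morse
functions), then there is a smooth `Z` such that for all `ε > 0` every orbit of `X + ε Z` converges to
one of finitely many rest points, which are rest points of `X` and critical points of `h`, and there are
finitely many attractors.

Since `X + ε Z → X` for `ε → 0`, these `X` are in the closure of the set of the fields with finitely many
attractors, in the `C^r` topology, so density (Q2) holds at `X`.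

Proof. `Z` is the gradient of `h`. By uniqueness of integral curves the `ω`-limit sets of `X + ε Z` lie
in `K`, where the flows of `X` and `X + ε Z` agree. An `ω`-limit set is internally chain transitive, so
it is contained in one chain class. Files `Pool/Agent/Q182/MF1`-`MF4` (helper182); the gradient of an
immersed manifold is from `Pool/Agent/H826R2/Wein/Grad.lean` and the flows of vector fields are treated
as in `Pool/Agent/Helper186/Flow.lean`.
-/

set_option autoImplicit false

open scoped Manifold ContDiff Topology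

universe u

namespace Pool.Agent.Results.MP_3a2b62_an.MonotoneFlows

open MeasureTheory Set Filter Pool.Agent.H718R2.G

section defs

variable {n : ℕ} {N : Type u} [TopologicalSpace N] [ChartedSpace (V n) N]

/-- Vector fields on `N`. -/
abbrev Field (n : ℕ) (N : Type u) [TopologicalSpace N] [ChartedSpace (V n) N] :=
  (x : N) → TangentSpace (𝓡 n) x

/-- `X` is a vector field of class `C^r`. -/
def IsClass [IsManifold (𝓡 n) ∞ N] (r : ℕ∞) (X : Field n N) : Prop :=
  ContMDiff (𝓡 n) (𝓡 n).tangent r (fun x => (⟨x, X x⟩ : TangentBundle (𝓡 n) N))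

/-- `φ` is the flow of the vector field `X`. -/
structure IsFlowOf (X : Field n N) (φ : ℝ → N → N) : Prop where
  cont : Continuous fun q : ℝ × N => φ q.1 q.2
  zero : ∀ x, φ 0 x = x
  add : ∀ s t x, φ (s + t) x = φ s (φ t x)
  curve : ∀ x, IsMIntegralCurve (fun t => φ t x) X

/-- `v + ε w` for `v`, `w` in `ℝⁿ`. -/
noncomputable def addScaled (ε : ℝ) (v w : V n) : V n := v + ε • w

/-- The vector field `X + ε Z`. -/
noncomputable def perturbed (X Z : Field n N) (ε : ℝ) : Field n N :=
  fun x => addScaled ε (X x) (Z x)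

/-- `y` is a critical point of `h` (the derivative in the chart at `y` vanishes). -/
def IsCrit (n : ℕ) {N : Type u} [TopologicalSpace N] [ChartedSpace (V n) N] (h : N → ℝ) (y : N) :
    Prop :=
  fderiv ℝ (fun v : V n => h ((chartAt (V n) y).symm v)) (chartAt (V n) y y) = 0

/-- The largest invariant set of critical points of `h`. -/
def CritInv (n : ℕ) {N : Type u} [TopologicalSpace N] [ChartedSpace (V n) N] (ψ : ℝ → N → N)
    (h : N → ℝ) : Set N :=
  {x | ∀ t, IsCrit n h (ψ t x)}

end defs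

section dyn

variable {X : Type u} [TopologicalSpace X]

/-- There are chains in `K` from `a` to `b` with arbitrarily small jumps: for every open neighbourhood
`W` of the diagonal there are `k ≥ 1`, points `a = x_0, x_1, …, x_k = b` of `K` and times
`t_i ∈ [1, 2]` with `(φ_{t_i}(x_i), x_{i+1}) ∈ W`. -/
def ChainTo (φ : ℝ → X → X) (K : Set X) (a b : X) : Prop :=
  ∀ W : Set (X × X), IsOpen W → (∀ x, (x, x) ∈ W) →
    Relation.TransGen (fun x y => x ∈ K ∧ y ∈ K ∧ ∃ t ∈ Icc (1 : ℝ) 2, (φ t x, y) ∈ W) a b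

/-- The chain recurrence classes of the restriction of the flow `φ` to `K`. -/
def chainClasses (φ : ℝ → X → X) (K : Set X) : Set (Set X) :=
  {C | ∃ a, ChainTo φ K a a ∧ C = {b | ChainTo φ K a b ∧ ChainTo φ K b a}}

/-- `h` does not decrease along the flow. -/
def NotDecreasing (φ : ℝ → X → X) (h : X → ℝ) : Prop := ∀ x t, 0 ≤ t → h x ≤ h (φ t x)

/-- The `ω`-limit set of `p`. -/
def omegaLim (φ : ℝ → X → X) (p : X) : Set X :=
  {q | ∀ U ∈ 𝓝 q, ∀ T : ℝ, ∃ t : ℝ, T ≤ t ∧ φ t p ∈ U}

/-- `C` contains a point whose forward orbit is dense in `C`. -/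
def Transitive (φ : ℝ → X → X) (C : Set X) : Prop :=
  ∃ x ∈ C, C ⊆ closure {y | ∃ t : ℝ, 0 ≤ t ∧ y = φ t x}

/-- Attractors: invariant, transitive, with a basin of positive measure. -/
def IsAttractor [MeasurableSpace X] (μ : Measure X) (φ : ℝ → X → X) (Λ : Set X) : Prop :=
  (∀ t, φ t '' Λ = Λ) ∧ Transitive φ Λ ∧ 0 < μ {p | omegaLim φ p ⊆ Λ}

/-- For every measure, there are finitely many attractors whose basins cover `X` up to a null set. -/
def FinitelyManyAttractors (φ : ℝ → X → X) : Prop :=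
  ∀ (_ : MeasurableSpace X) (μ : Measure X), ∃ (k : ℕ) (Λ : Fin k → Set X),
    (∀ i, IsAttractor μ φ (Λ i)) ∧ μ {p | ∀ i, ¬ omegaLim φ p ⊆ Λ i} = 0

/-- Every orbit of `φ` converges to a common rest point of `φ` and `ψ` in `S`. -/
def ConvergesToRest (φ ψ : ℝ → X → X) (S : Set X) : Prop :=
  ∀ p, ∃ q ∈ S, (∀ t, ψ t q = q) ∧ (∀ t, φ t q = q) ∧ Tendsto (fun t => φ t p) atTop (𝓝 q)

end dyn

theorem crit_iff {n : ℕ} {N : Type u} [TopologicalSpace N] [T2Space N]
    [ChartedSpace (V n) N] [IsManifold (𝓡 n) ∞ N] {h : N → ℝ} (hh : ContMDiff (𝓡 n) 𝓘(ℝ, ℝ) ∞ h)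
    (y : N) : IsCrit n h y ↔ Pool.Agent.Helper186.dForm (𝓡 n) h y = 0 :=
  (Pool.Agent.Y318.MN.crit_iff hh (IsManifold.chart_mem_maximalAtlas y)
    (mem_chart_source (V n) y)).symm

/-- **Vector fields which do not decrease a function.** -/
theorem result (n : ℕ) (N : Type u) [TopologicalSpace N] [T2Space N] [CompactSpace N]
    [ChartedSpace (V n) N] [IsManifold (𝓡 n) ∞ N] (r : ℕ∞) (hr : 1 ≤ r) (X : Field n N)
    (hX : IsClass r X) (ψ : ℝ → N → N) (hψ : IsFlowOf X ψ) (h : N → ℝ)
    (hh : ContMDiff (𝓡 n) 𝓘(ℝ, ℝ) ∞ h) (hm : NotDecreasing ψ h) :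
    ((chainClasses ψ (CritInv n ψ h)).Finite →
      (∀ C ∈ chainClasses ψ (CritInv n ψ h), Transitive ψ C) →
      ∃ Z : Field n N, IsClass ⊤ Z ∧ ∀ ε : ℝ, 0 < ε → ∃ φ, IsFlowOf (perturbed X Z ε) φ ∧
        NotDecreasing φ h ∧ (∀ x ∈ CritInv n ψ h, ∀ t, φ t x = ψ t x) ∧
        (∀ p, ∃ C ∈ chainClasses ψ (CritInv n ψ h), omegaLim φ p ⊆ C) ∧
        FinitelyManyAttractors φ) ∧
    ({x | IsCrit n h x}.Finite →
      ∃ Z : Field n N, IsClass ⊤ Z ∧ ∀ ε : ℝ, 0 < ε → ∃ φ, IsFlowOf (perturbed X Z ε) φ ∧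
        ConvergesToRest φ ψ {x | IsCrit n h x} ∧ FinitelyManyAttractors φ) := by
  have hK : CritInv n ψ h = Pool.Agent.Q182.MF.critInv n ψ h := by
    ext x
    exact forall_congr' fun t => crit_iff hh _
  have hS : {x | IsCrit n h x} = {x | Pool.Agent.Helper186.dForm (𝓡 n) h x = 0} := by
    ext x
    exact crit_iff hh x
  rw [hK, hS]
  constructor
  · intro hfin htr
    obtain ⟨Z, hZ, h1⟩ := Pool.Agent.Q182.MF.main hr hX hψ.zero hψ.curve hh hm hfin
      (fun a ha => htr _ ⟨a, ha, rfl⟩)
    refine ⟨Z, hZ, fun ε hε => ?_⟩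
    obtain ⟨φ, hφ, h2, h3, h4, h5, h6⟩ := h1 ε hε
    refine ⟨φ, ⟨hφ.cont, hφ.zero, hφ.add, h2⟩, h3, h4, fun p => ?_, h6⟩
    obtain ⟨a, ha, h7⟩ := h5 p
    exact ⟨_, ⟨a, ha, rfl⟩, h7⟩
  · intro hfin
    obtain ⟨Z, hZ, h1⟩ := Pool.Agent.Q182.MF.main_finite hr hX hψ.zero hψ.curve hh hm hfin
    refine ⟨Z, hZ, fun ε hε => ?_⟩
    obtain ⟨φ, hφ, h2, h3, h4⟩ := h1 ε hε
    exact ⟨φ, ⟨hφ.cont, hφ.zero, hφ.add, h2⟩, h3, h4⟩

end Pool.Agent.Results.MP_3a2b62_an.MonotoneFlows
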